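import Mathlib

set_option autoImplicit false

namespace Pool.Agent.KS6_70.Lerf.Defs

open Filter Topology

/-- LERF: every finitely generated subgroup is an intersection of finite-index subgroups. -/
def IsLERF (G : Type) [Group G] : Prop :=
  ∀ H : Subgroup G, H.FG → ∀ g : G, g ∉ H → ∃ M : Subgroup G, M.FiniteIndex ∧ H ≤ M ∧ g ∉ M

/-- The normalised Hamming distance on the symmetric group of a finite set. -/
noncomputable def hamming {X : Type} (σ τ : Equiv.Perm X) : ℝ :=
  (Set.ncard {x | σ x ≠ τ x} : ℝ) / Nat.card X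

/-- Permutation stability of the presentation `π : F_S → G` (with `N = ker π`). -/
def PermStable {S G : Type} [Group G] (π : FreeGroup S →* G) : Prop :=
  ∀ (X : ℕ → Type) (_ : ∀ n, Finite (X n)) (φ : ∀ n, FreeGroup S →* Equiv.Perm (X n)),
    (∀ w ∈ π.ker, Tendsto (fun n => hamming (φ n w) 1) atTop (𝓝 0)) →
    ∃ ψ : ∀ n, FreeGroup S →* Equiv.Perm (X n), (∀ n, π.ker ≤ (ψ n).ker) ∧
      ∀ s : S, Tendsto (fun n => hamming (φ n (FreeGroup.of s)) (ψ n (FreeGroup.of s))) atTop (𝓝 0)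

/-- Flexible stability of the presentation `π : F_S → G`: the corrected actions may live on slightly
larger finite sets `Y n ⊇ X n`, where `(|Y n| - |X n|) / |X n| → 0`, and have to be close to the given
ones on `X n`. -/
def FlexStable {S G : Type} [Group G] (π : FreeGroup S →* G) : Prop :=
  ∀ (X : ℕ → Type) (_ : ∀ n, Finite (X n)) (φ : ∀ n, FreeGroup S →* Equiv.Perm (X n)),
    (∀ w ∈ π.ker, Tendsto (fun n => hamming (φ n w) 1) atTop (𝓝 0)) →
    ∃ (Y : ℕ → Type) (_ : ∀ n, Finite (Y n)) (ι : ∀ n, X n ↪ Y n)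
      (ψ : ∀ n, FreeGroup S →* Equiv.Perm (Y n)), (∀ n, π.ker ≤ (ψ n).ker) ∧
      Tendsto (fun n => ((Nat.card (Y n) : ℝ) - Nat.card (X n)) / Nat.card (X n)) atTop (𝓝 0) ∧
      ∀ s : S, Tendsto (fun n => (Set.ncard {x | ι n (φ n (FreeGroup.of s) x) ≠
        ψ n (FreeGroup.of s) (ι n x)} : ℝ) / Nat.card (X n)) atTop (𝓝 0)

theorem PermStable.flex {S G : Type} [Group G] {π : FreeGroup S →* G} (h : PermStable π) :
    FlexStable π := by
  intro X hX φ hφ
  obtain ⟨ψ, h1, h2⟩ := h X hX φ hφ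
  exact ⟨X, hX, fun n => Function.Embedding.refl _, ψ, h1, by simp, h2⟩

end Pool.Agent.KS6_70.Lerf.Defs
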