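import Pool.Agent.KS6_70.Lerf.L1

set_option autoImplicit false

namespace Pool.Agent.KS6_70.Lerf

open LaurentPolynomial

variable [Par]

/-! ### commutative algebra over `F[T^k, T^-k]` -/

noncomputable def A (k : ℤ) : Subalgebra F L := Algebra.adjoin F {T k, T (-k)}

theorem T_mem (k j : ℤ) : (T (k * j) : L) ∈ A k := by
  obtain ⟨n, rfl | rfl⟩ := Int.eq_nat_or_neg j
  · rw [mul_comm, ← T_pow]
    exact (A k).pow_mem (Algebra.subset_adjoin (by simp)) n
  · rw [show k * -(n : ℤ) = n * -k by ring, ← T_pow]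
    exact (A k).pow_mem (Algebra.subset_adjoin (by simp)) n

instance (k : ℤ) : Algebra.FiniteType F (A k) := .adjoin_of_finite (Set.toFinite _)

instance (k : ℤ) : IsNoetherianRing (A k) := Algebra.FiniteType.isNoetherianRing F _

theorem finL {k : ℤ} (hk : 0 < k) : Module.Finite (A k) L := by
  refine ⟨Submodule.fg_def.2 ⟨(fun i : ℤ => (T i : L)) '' Set.Ico 0 k,
    (Set.finite_Ico _ _).image _, ?_⟩⟩
  rw [eq_top_iff]
  intro γ hγ
  clear hγ
  induction γ using L_ind with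
  | h0 => exact Submodule.zero_mem _
  | hT i =>
    have : (T i : L) = (⟨T (k * (i / k)), T_mem k _⟩ : A k) • (T (i % k) : L) := by
      show _ = T _ * T _
      rw [← T_add, Int.mul_ediv_add_emod]
    rw [this]
    exact Submodule.smul_mem _ _ (Submodule.subset_span
      ⟨_, ⟨Int.emod_nonneg _ hk.ne', Int.emod_lt_of_pos _ hk⟩, rfl⟩)
  | ha x y hx hy => exact Submodule.add_mem _ hx hy

noncomputable def s (k j : ℤ) : A k := ⟨T (k * j), T_mem k j⟩

theorem s_pow (k j : ℤ) (n : ℕ) : (s k j - 1) ^ 2 ^ n = s k (2 ^ n * j) - 1 := by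
  apply Subtype.ext
  show ((T (k * j) : L) - 1) ^ 2 ^ n = T _ - 1
  haveI : CharP L 2 := charP_of_injective_algebraMap (algebraMap F L).injective 2
  rw [sub_pow_char_pow, T_pow, one_pow]
  congr 2
  push_cast; ring

theorem artin {k : ℤ} (hk : 0 < k) (Q : Submodule (A k) B) (j : ℤ) : ∃ n : ℕ, ∀ c : B,
    (T (k * (2 ^ n * j)) - 1 : L) • c ∈ Q →
      ∃ q ∈ Q, (T (k * (2 ^ n * j)) - 1 : L) • c = (T (k * j) - 1 : L) • q := by
  haveI := finL hk
  obtain ⟨n, hn⟩ := (Ideal.span {s k j - 1}).exists_pow_inf_eq_pow_smul Q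
  refine ⟨n + 1, fun c hc => ?_⟩
  have h1 : (T (k * (2 ^ (n + 1) * j)) - 1 : L) • c ∈
      ((Ideal.span {s k j - 1}) ^ (n + 1) • ⊤ ⊓ Q : Submodule (A k) B) := by
    refine ⟨?_, hc⟩
    have : (T (k * (2 ^ (n + 1) * j)) - 1 : L) • c = (s k j - 1) ^ 2 ^ (n + 1) • c := by
      rw [s_pow]; rfl
    rw [this]
    refine Submodule.smul_mem_smul ?_ trivial
    exact Ideal.pow_le_pow_right (Nat.lt_two_pow_self (n := n + 1)).le
      (Ideal.pow_mem_pow (Ideal.mem_span_singleton_self _) _)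
  rw [hn (n + 1) (by omega), Nat.add_sub_cancel_left, pow_one] at h1
  have h2 := Submodule.smul_mono (le_refl (Ideal.span {s k j - 1})) inf_le_right h1
  rw [Submodule.ideal_span_singleton_smul, Submodule.mem_smul_pointwise_iff_exists] at h2
  obtain ⟨q, hq, e⟩ := h2
  exact ⟨q, hq, e.symm⟩

theorem rfmod {k : ℤ} (hk : 0 < k) (Q : Submodule (A k) B) (y : B)
    (h : ∀ j : ℕ, 0 < j → ∃ c : B, y - (T (k * j) - 1 : L) • c ∈ Q) : y ∈ Q := by
  haveI := finL hk
  by_contra hy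
  have hx : Q.mkQ y ≠ 0 := by simpa using hy
  obtain ⟨m, hm, hle⟩ := Ideal.exists_le_maximal (Submodule.span (A k) {Q.mkQ y}).annihilator (by
    intro ht
    rw [Submodule.annihilator_eq_top_iff, Submodule.span_singleton_eq_bot] at ht
    exact hx ht)
  have h1 : ∃ n : ℕ, Q.mkQ y ∉ (m ^ n • ⊤ : Submodule (A k) (B ⧸ Q)) := by
    by_contra hc
    push Not at hc
    obtain ⟨r, hr⟩ := (m.mem_iInf_smul_pow_eq_bot_iff _).1 (Submodule.mem_iInf _ |>.2 hc)
    have : 1 - r.1 ∈ m := hle (by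
      rw [Submodule.mem_annihilator_span_singleton, sub_smul, one_smul, hr, sub_self])
    exact hm.ne_top ((Ideal.eq_top_iff_one _).2 (by simpa using m.add_mem this r.2))
  obtain ⟨n, hn⟩ := h1
  letI := Ideal.Quotient.field m
  haveI : Module.Finite F (A k ⧸ m) := finite_of_finite_type_of_isJacobsonRing _ _
  haveI : Finite (A k ⧸ m) := Module.finite_of_finite F
  obtain ⟨a, ha, e⟩ : ∃ a : ℕ, 0 < a ∧ s k a - 1 ∈ m := by
    have hs : ∀ a : ℕ, s k a = s k 1 ^ a := fun a => Subtype.ext (by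
      show T _ = (T (k * 1) : L) ^ a
      rw [T_pow]; congr 1; ring)
    have hu : Ideal.Quotient.mk m (s k 1) * Ideal.Quotient.mk m (s k (-1)) = 1 := by
      rw [← map_mul, ← map_one (Ideal.Quotient.mk m)]
      congr 1
      apply Subtype.ext
      show (T _ : L) * T _ = 1
      rw [← T_add]; simp
    have hfin := isOfFinOrder_of_finite (Units.mkOfMulEqOne _ _ hu)
    obtain ⟨a, ha, e⟩ := isOfFinOrder_iff_pow_eq_one.1 hfin
    refine ⟨a, ha, ?_⟩
    rw [← Ideal.Quotient.eq_zero_iff_mem, map_sub, map_one, hs, map_pow, sub_eq_zero]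
    exact congrArg Units.val e
  obtain ⟨c, hc⟩ := h (2 ^ n * a) (by positivity)
  apply hn
  have : Q.mkQ y = (s k a - 1) ^ 2 ^ n • Q.mkQ c := by
    rw [← map_smul, s_pow]
    refine (Submodule.Quotient.eq Q).2 ?_
    push_cast at hc
    exact hc
  rw [this]
  exact Submodule.smul_mem_smul (Ideal.pow_le_pow_right Nat.lt_two_pow_self.le
    (Ideal.pow_mem_pow e _)) trivial

/-! ### the group -/

@[ext] structure G where
  b : B
  z : Z
  a : ℤ

noncomputable instance : Mul G :=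
  ⟨fun g h => ⟨g.b + (T g.a : L) • h.b, g.z + h.z + om g.b ((T g.a : L) • h.b), g.a + h.a⟩⟩
noncomputable instance : One G := ⟨⟨0, 0, 0⟩⟩
noncomputable instance : Inv G := ⟨fun g => ⟨-((T (-g.a) : L) • g.b), -g.z + om g.b g.b, -g.a⟩⟩

theorem mul_b (g h : G) : (g * h).b = g.b + (T g.a : L) • h.b := rfl
theorem mul_z (g h : G) : (g * h).z = g.z + h.z + om g.b ((T g.a : L) • h.b) := rfl
theorem mul_a (g h : G) : (g * h).a = g.a + h.a := rfl
theorem one_b : (1 : G).b = 0 := rfl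
theorem one_z : (1 : G).z = 0 := rfl
theorem one_a : (1 : G).a = 0 := rfl
theorem inv_b (g : G) : g⁻¹.b = -((T (-g.a) : L) • g.b) := rfl
theorem inv_z (g : G) : g⁻¹.z = -g.z + om g.b g.b := rfl
theorem inv_a (g : G) : g⁻¹.a = -g.a := rfl

theorem TT' (a : ℤ) (b : B) : (T a : L) • (T (-a) : L) • b = b := by
  rw [smul_smul, mul_comm, TT, one_smul]

noncomputable instance : Group G := Group.ofLeftAxioms
  (fun g h k => by
    ext1
    · simp only [mul_b, mul_a, smul_add, smul_smul, T_add, add_assoc]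
    · simp only [mul_z, mul_b, mul_a, smul_add, om_add_left, om_add_right, T_add, mul_smul, om_T]
      abel
    · simp only [mul_a, add_assoc])
  (fun g => by
    ext1
    · simp [mul_b, one_b, one_a]
    · simp [mul_z, one_b, one_z, om_zero_left]
    · simp [mul_a, one_a])
  (fun g => by
    ext1
    · simp [mul_b, one_b, inv_b, inv_a]
    · simp only [mul_z, one_z, inv_b, inv_a, inv_z, om_neg_left, om_T]; abel
    · simp [mul_a, one_a, inv_a])

def deg : G →* Multiplicative ℤ where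
  toFun g := Multiplicative.ofAdd g.a
  map_one' := rfl
  map_mul' _ _ := rfl

theorem zpow_a (g : G) (j : ℤ) : (g ^ j).a = g.a * j := by
  have := congrArg Multiplicative.toAdd (map_zpow deg g j)
  simpa [deg, mul_comm] using this

theorem pow_a (g : G) (j : ℕ) : (g ^ j).a = g.a * j := by
  rw [← zpow_natCast, zpow_a]

noncomputable def cz (z : Z) : G := ⟨0, z, 0⟩

theorem cz_add (z w : Z) : cz (z + w) = cz z * cz w := by
  ext1
  · simp [mul_b, cz]
  · simp [mul_z, cz, om_zero_left]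
  · simp [mul_a, cz]

theorem cz_zero : cz 0 = 1 := rfl

theorem cz_neg (z : Z) : cz (-z) = (cz z)⁻¹ := by
  rw [eq_inv_iff_mul_eq_one, ← cz_add, neg_add_cancel, cz_zero]

theorem cz_mul (z : Z) (g : G) : cz z * g = ⟨g.b, z + g.z, g.a⟩ := by
  ext1
  · simp [mul_b, cz]
  · simp [mul_z, cz, om_zero_left]
  · simp [mul_a, cz]

theorem cz_comm (z : Z) (g : G) : g * cz z = cz z * g := by
  rw [cz_mul]
  ext1
  · simp [mul_b, cz]
  · simp [mul_z, cz, om_zero_right, add_comm]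
  · simp [mul_a, cz]

theorem eq_cz {g : G} (hb : g.b = 0) (ha : g.a = 0) : g = cz g.z := G.ext hb rfl ha

theorem comm0 {g h : G} (hg : g.a = 0) (hh : h.a = 0) : g * h = cz (cm g.b h.b) * (h * g) := by
  rw [cz_mul]
  ext1
  · simp [mul_b, hg, hh, add_comm]
  · simp only [mul_z, hg, hh, T_zero, one_smul, cm]; abel
  · simp [mul_a, hg, hh]

theorem conj_b (t g : G) (hg : g.a = 0) : (t * g * t⁻¹).b = (T t.a : L) • g.b := by
  simp only [mul_b, mul_a, inv_b, hg, add_zero, smul_neg, TT']; abel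

theorem conj_a (t g : G) : (t * g * t⁻¹).a = g.a := by
  simp only [mul_a, inv_a]; ring

theorem conj_z (t g : G) (hg : g.a = 0) : (t * g * t⁻¹).z =
    g.z + cm t.b ((T t.a : L) • g.b) := by
  simp only [mul_b, mul_z, mul_a, inv_b, inv_z, hg, add_zero, smul_neg, TT', om_neg_right,
    om_add_left, cm]
  abel

/-- finite index normal subgroups -/
def UU (m N : ℕ) (hN : K m ∣ N) (Z0 : Submodule F Z) (hZ : tail m ≤ Z0) : Subgroup G where
  carrier := {g | (∃ c : B, g.b = (T N - 1 : L) • c) ∧ g.z ∈ Z0 ∧ (N : ℤ) ∣ g.a}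
  one_mem' := ⟨⟨0, by simp [one_b]⟩, Z0.zero_mem, by simp [one_a]⟩
  mul_mem' := by
    rintro g h ⟨⟨c, hc⟩, h2, h3⟩ ⟨⟨d, hd⟩, h4, h5⟩
    refine ⟨⟨c + (T g.a : L) • d, ?_⟩, ?_, h3.add h5⟩
    · rw [mul_b, hc, hd, smul_add, smul_comm]
    · rw [mul_z, hc]
      exact Z0.add_mem (Z0.add_mem h2 h4) (hZ (om_per_left (Int.natCast_dvd_natCast.2 hN) _ _))
  inv_mem' := by
    rintro g ⟨⟨c, hc⟩, h2, h3⟩
    refine ⟨⟨-((T (-g.a) : L) • c), ?_⟩, ?_, h3.neg_right⟩
    · rw [inv_b, hc, smul_neg, smul_comm]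
    · rw [inv_z, hc]
      exact Z0.add_mem (Z0.neg_mem h2) (hZ (om_per_left (Int.natCast_dvd_natCast.2 hN) _ _))

theorem T_sub_one {N a : ℤ} (h : N ∣ a) : ∃ c : L, T a - 1 = (T N - 1) * c := by
  obtain ⟨j, rfl⟩ := h
  have h1 : ∀ n : ℕ, (T N - 1 : L) ∣ T (N * n) - 1 := fun n => by
    rw [mul_comm, ← T_pow]
    exact sub_one_dvd_pow_sub_one _ _
  obtain ⟨n, rfl | rfl⟩ := Int.eq_nat_or_neg j
  · exact h1 n
  · have : (T (N * -(n : ℤ)) - 1 : L) = (T (N * n) - 1) * -T (-(N * n)) := by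
      rw [mul_neg N]
      linear_combination TT (N * n)
    rw [this]
    exact (h1 n).mul_right _

instance UU_normal (m N : ℕ) (hN : K m ∣ N) (Z0 : Submodule F Z) (hZ : tail m ≤ Z0) :
    (UU m N hN Z0 hZ).Normal := by
  have hN' : (K m : ℤ) ∣ N := Int.natCast_dvd_natCast.2 hN
  refine ⟨?_⟩
  rintro g ⟨⟨c, hc⟩, h2, h3⟩ t
  obtain ⟨e, he⟩ := T_sub_one h3
  have e1 : (T (t.a + g.a) : L) • (T (-t.a) : L) • t.b = t.b + (T N - 1 : L) • e • t.b := by
    rw [smul_smul, smul_smul, ← he, ← T_add, sub_smul, one_smul]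
    simp
  refine ⟨⟨(T t.a : L) • c - e • t.b, ?_⟩, ?_, by rw [conj_a]; exact h3⟩
  · simp only [mul_b, mul_a, inv_b, smul_neg, e1, hc, smul_sub]
    rw [smul_comm]; abel
  · simp only [mul_b, mul_z, mul_a, inv_b, inv_z, smul_neg, e1, hc, om_neg_right, om_add_left,
      om_add_right]
    rw [smul_comm (T t.a : L)]
    have a1 := hZ (om_per_right hN' t.b ((T t.a : L) • c))
    have a2 := hZ (om_per_right hN' t.b (e • t.b))
    have a3 := hZ (om_per_left hN' ((T t.a : L) • c) t.b)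
    have a4 := hZ (om_per_left hN' ((T t.a : L) • c) ((T N - 1 : L) • e • t.b))
    convert Z0.sub_mem (Z0.sub_mem (Z0.sub_mem (Z0.add_mem h2 a1) a2) a3) a4 using 1
    abel

theorem fin_span {V : Type} [AddCommGroup V] [Module F V] {S : Set V} (h : S.Finite) :
    (Submodule.span F S : Set V).Finite := by
  haveI : Module.Finite F (Submodule.span F S) := Module.Finite.span_of_finite F h
  haveI : Finite (Submodule.span F S) := Module.finite_of_finite F
  exact Set.toFinite _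

theorem red {N : ℤ} (hN : 0 < N) (γ : L) :
    ∃ v ∈ Submodule.span F ((fun i : ℤ => (T i : L)) '' Set.Ico 0 N), ∃ c, γ = v + (T N - 1) * c := by
  induction γ using L_ind with
  | h0 => exact ⟨0, Submodule.zero_mem _, 0, by simp⟩
  | hT i =>
    obtain ⟨c, hc⟩ := T_sub_one (Dvd.intro (i / N) rfl)
    refine ⟨T (i % N), Submodule.subset_span
      ⟨_, ⟨Int.emod_nonneg _ hN.ne', Int.emod_lt_of_pos _ hN⟩, rfl⟩, c * T (i % N), ?_⟩
    rw [← mul_assoc, ← hc, sub_mul, ← T_add, Int.mul_ediv_add_emod]; ring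
  | ha x y hx hy =>
    obtain ⟨v, hv, c, rfl⟩ := hx
    obtain ⟨w, hw, d, rfl⟩ := hy
    exact ⟨v + w, Submodule.add_mem _ hv hw, c + d, by ring⟩

noncomputable def head (m : ℕ) : Submodule F Z :=
  Submodule.span F ((fun l : ℕ => (Finsupp.single l 1 : Z)) '' Set.Iic m)

theorem head_tail (m : ℕ) (z : Z) : ∃ v ∈ head m, z - v ∈ tail m := by
  induction z using Finsupp.induction_linear with
  | zero => exact ⟨0, Submodule.zero_mem _, by simp⟩
  | add x y hx hy =>
    obtain ⟨v, hv, h⟩ := hx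
    obtain ⟨w, hw, h'⟩ := hy
    exact ⟨v + w, Submodule.add_mem _ hv hw, by convert Submodule.add_mem _ h h' using 1; abel⟩
  | single l c =>
    by_cases hl : l ≤ m
    · refine ⟨Finsupp.single l c, ?_, by simp⟩
      rcases zm c with rfl | rfl
      · simp
      · exact Submodule.subset_span ⟨l, hl, rfl⟩
    · exact ⟨0, Submodule.zero_mem _, fun l' hl' => by
        rw [sub_zero, Finsupp.single_eq_of_ne (by omega)]⟩

theorem tail_le (m : ℕ) (W : Submodule F Z) (h : ∀ l, m ≤ l → Finsupp.single (l + 1) 1 ∈ W) :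
    tail m ≤ W := by
  intro z hz
  rw [← Finsupp.sum_single z]
  refine Submodule.sum_mem _ fun l hl => ?_
  have h1 := Finsupp.mem_support_iff.1 hl
  have h2 : m < l := by by_contra hc; exact h1 (hz l (by omega))
  obtain ⟨l, rfl⟩ : ∃ j, l = j + 1 := ⟨l - 1, by omega⟩
  rcases zm (z (l + 1)) with e | e
  · exact absurd e h1
  · rw [e]; exact h l (by omega)

theorem UU_fin (m N : ℕ) (hN : K m ∣ N) (h0 : 0 < N) (Z0 : Submodule F Z) (hZ : tail m ≤ Z0) :
    (UU m N hN Z0 hZ).FiniteIndex := by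
  have hN' : (K m : ℤ) ∣ N := Int.natCast_dvd_natCast.2 hN
  have h0' : (0 : ℤ) < N := by exact_mod_cast h0
  have hV := fin_span ((Set.finite_Ico (0 : ℤ) N).image fun i : ℤ => (T i : L))
  have hH : (head m : Set Z).Finite := fin_span ((Set.finite_Iic m).image _)
  have hS := ((hV.prod hV).prod (hH.prod (Set.finite_Ico (0 : ℤ) N))).image
    (fun x => (QuotientGroup.mk (⟨x.1, x.2.1, x.2.2⟩ : G) : G ⧸ UU m N hN Z0 hZ))
  have : Finite (G ⧸ UU m N hN Z0 hZ) := by
    rw [← Set.finite_univ_iff]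
    refine hS.subset fun q _ => ?_
    obtain ⟨g, rfl⟩ := QuotientGroup.mk_surjective q
    obtain ⟨v, hv, c, hc⟩ := red h0' g.b.1
    obtain ⟨w, hw, d, hd⟩ := red h0' g.b.2
    obtain ⟨z, hz, hz'⟩ := head_tail m g.z
    refine ⟨((v, w), z, g.a % N), ⟨⟨hv, hw⟩, hz, Int.emod_nonneg _ h0'.ne',
      Int.emod_lt_of_pos _ h0'⟩, QuotientGroup.eq.2 ?_⟩
    have hb : g.b = (v, w) + (T N - 1 : L) • (c, d) := Prod.ext hc hd
    refine ⟨⟨(T (-(g.a % N)) : L) • (c, d), ?_⟩, ?_, ?_⟩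
    · simp only [mul_b, inv_b, inv_a, hb, smul_add]
      rw [smul_comm (T N - 1 : L)]; abel
    · simp only [mul_z, inv_b, inv_a, inv_z, om_neg_left, om_T, hb, om_add_right]
      convert Z0.sub_mem (hZ hz') (hZ (om_per_right hN' (v, w) (c, d))) using 1
      abel
    · simp only [mul_a, inv_a]
      exact ⟨g.a / N, by have := Int.emod_add_mul_ediv g.a N; linarith⟩
  exact Subgroup.finiteIndex_of_finite_quotient

theorem UU_mono {m m' N N' : ℕ} (hN : K m ∣ N) (hN' : K m' ∣ N') (h1 : m ≤ m') (h2 : N ∣ N') :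
    UU m' N' hN' _ le_rfl ≤ UU m N hN _ le_rfl := by
  rintro g ⟨⟨c, hc⟩, h3, h4⟩
  have h2' : (N : ℤ) ∣ N' := Int.natCast_dvd_natCast.2 h2
  obtain ⟨e, he⟩ := T_sub_one h2'
  exact ⟨⟨e • c, by rw [hc, he, mul_smul]⟩, tail_anti h1 h3, h2'.trans h4⟩

end Pool.Agent.KS6_70.Lerf
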