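import Pool.Agent.KS6_70.Lerf.L2

set_option autoImplicit false

namespace Pool.Agent.KS6_70.Lerf

open LaurentPolynomial

variable [Par]

abbrev V (m N : ℕ) (hN : K m ∣ N) : Subgroup G := UU m N hN _ le_rfl

/-- `y` lies in the closure of `H` -/
def Cl (H : Subgroup G) (y : G) : Prop :=
  ∀ (m N : ℕ) (hN : K m ∣ N), 0 < N → ∃ h ∈ H, h⁻¹ * y ∈ V m N hN

def Cl0 (H : Subgroup G) (y : G) : Prop :=
  ∀ (m N : ℕ) (hN : K m ∣ N), 0 < N → ∃ h ∈ H, h.a = 0 ∧ h⁻¹ * y ∈ V m N hN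

theorem Cl.mul {H : Subgroup G} {y h : G} (hy : Cl H y) (hh : h ∈ H) : Cl H (h * y) := by
  intro m N hN h0
  obtain ⟨g, hg, e⟩ := hy m N hN h0
  exact ⟨h * g, H.mul_mem hh hg, by simpa [mul_assoc] using e⟩

theorem Cl0.mul {H : Subgroup G} {y h : G} (hy : Cl0 H y) (hh : h ∈ H) (ha : h.a = 0) :
    Cl0 H (h * y) := by
  intro m N hN h0
  obtain ⟨g, hg, hg0, e⟩ := hy m N hN h0
  exact ⟨h * g, H.mul_mem hh hg, by rw [mul_a, ha, hg0, add_zero], by simpa [mul_assoc] using e⟩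

theorem mem_tail_all {z : Z} (h : ∀ m, z ∈ tail m) : z = 0 := by
  ext l; exact h l l le_rfl

theorem sep (g : G) (h : ∀ (m N : ℕ) (hN : K m ∣ N), 0 < N → g ∈ V m N hN) : g = 1 := by
  ext1
  · have := rfmod one_pos ⊥ g.b fun j hj => by
      obtain ⟨⟨c, hc⟩, -⟩ := h 0 j (one_dvd _) hj
      exact ⟨c, by rw [hc, one_mul, sub_self]; exact Submodule.zero_mem _⟩
    exact (Submodule.mem_bot _).1 this
  · exact mem_tail_all fun m => (h m (K m) dvd_rfl (K_pos m)).2.1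
  · have := (h 0 (g.a.natAbs + 1) (one_dvd _) (by omega)).2.2
    exact Int.eq_zero_of_abs_lt_dvd this (by rw [← Int.natCast_natAbs]; push_cast; omega)

theorem closed_fin {H : Subgroup G} (hH : (H : Set G).Finite) {y : G} (hy : Cl H y) : y ∈ H := by
  classical
  by_contra hc
  have : ∀ h : G, ∃ (m N : ℕ) (hN : K m ∣ N), 0 < N ∧ (h ∈ H → h⁻¹ * y ∉ V m N hN) := by
    intro h
    by_cases hh : h ∈ H
    · by_contra hc2
      push Not at hc2
      have := sep (h⁻¹ * y) fun m N hN h0 => (hc2 m N hN h0).2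
      rw [inv_mul_eq_one] at this
      exact hc (this ▸ hh)
    · exact ⟨0, 1, one_dvd _, one_pos, fun h' => absurd h' hh⟩
  choose m N hN h0 h1 using this
  obtain ⟨h, hh, e⟩ := hy (hH.toFinset.sup m) (K (hH.toFinset.sup m) * ∏ g ∈ hH.toFinset, N g)
    (Dvd.intro _ rfl) (Nat.mul_pos (K_pos _) (Finset.prod_pos fun g _ => h0 g))
  have hh' : h ∈ hH.toFinset := by simpa using hh
  exact h1 h hh (UU_mono _ _ (Finset.le_sup hh')
    ((Finset.dvd_prod_of_mem N hh').mul_left _) e)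

theorem om_smul_left (c : F) (a b : B) : om (c • a) b = c • om a b := by
  rcases zm c with rfl | rfl <;> simp [om_zero_left]

/-- finitely generated subgroups of degree zero are finite -/
theorem fin0 {S : Set G} (hS : S.Finite) (h : ∀ g ∈ S, g.a = 0) :
    (Subgroup.closure S : Set G).Finite := by
  let P : Submodule F B := Submodule.span F (G.b '' S)
  have hP : (P : Set B).Finite := fin_span (hS.image _)
  let W : Submodule F Z := Submodule.span F (G.z '' S ∪ Set.image2 om P P)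
  have hW : (W : Set Z).Finite := fin_span ((hS.image _).union (hP.image2 _ hP))
  have hom : ∀ a ∈ P, ∀ b ∈ P, om a b ∈ W := fun a ha b hb =>
    Submodule.subset_span (Or.inr (Set.mem_image2_of_mem ha hb))
  let E : Subgroup G :=
    { carrier := {g | g.b ∈ P ∧ g.z ∈ W ∧ g.a = 0}
      one_mem' := ⟨P.zero_mem, W.zero_mem, rfl⟩
      mul_mem' := by
        rintro g h ⟨h1, h2, h3⟩ ⟨h4, h5, h6⟩
        refine ⟨?_, ?_, by rw [mul_a, h3, h6, add_zero]⟩
        · rw [mul_b, h3, T_zero, one_smul]; exact P.add_mem h1 h4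
        · rw [mul_z, h3, T_zero, one_smul]; exact W.add_mem (W.add_mem h2 h5) (hom _ h1 _ h4)
      inv_mem' := by
        rintro g ⟨h1, h2, h3⟩
        refine ⟨?_, ?_, by rw [inv_a, h3, neg_zero]⟩
        · rw [inv_b, h3, neg_zero, T_zero, one_smul]; exact P.neg_mem h1
        · rw [inv_z]; exact W.add_mem (W.neg_mem h2) (hom _ h1 _ h1) }
  have hle : Subgroup.closure S ≤ E := (Subgroup.closure_le _).2 fun g hg =>
    ⟨Submodule.subset_span ⟨g, hg, rfl⟩, Submodule.subset_span (Or.inl ⟨g, hg, rfl⟩), h g hg⟩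
  refine ((hP.prod hW).image fun x => (⟨x.1, x.2, 0⟩ : G)).subset fun g hg => ?_
  obtain ⟨h1, h2, h3⟩ := hle hg
  exact ⟨(g.b, g.z), ⟨h1, h2⟩, G.ext rfl rfl h3.symm⟩

section
variable (H : Subgroup G) {k : ℤ} {τ : G}

def Qs : Set B := {b | ∃ h ∈ H, h.a = 0 ∧ h.b = b}

theorem Qs_zero : (0 : B) ∈ Qs H := ⟨1, H.one_mem, rfl, rfl⟩

theorem Qs_add {a b : B} (ha : a ∈ Qs H) (hb : b ∈ Qs H) : a + b ∈ Qs H := by
  obtain ⟨g, hg, h1, rfl⟩ := ha
  obtain ⟨h, hh, h2, rfl⟩ := hb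
  exact ⟨g * h, H.mul_mem hg hh, by rw [mul_a, h1, h2, add_zero],
    by rw [mul_b, h1, T_zero, one_smul]⟩

theorem Qs_T (hτ : τ ∈ H) (hk : τ.a = k) (j : ℤ) {a : B} (ha : a ∈ Qs H) :
    (T (k * j) : L) • a ∈ Qs H := by
  obtain ⟨g, hg, h1, rfl⟩ := ha
  exact ⟨τ ^ j * g * (τ ^ j)⁻¹, H.mul_mem (H.mul_mem (H.zpow_mem hτ j) hg)
    (H.inv_mem (H.zpow_mem hτ j)), by rw [conj_a, h1], by rw [conj_b _ _ h1, zpow_a, hk]⟩

def Q (hτ : τ ∈ H) (hk : τ.a = k) : Submodule (A k) B where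
  carrier := Qs H
  zero_mem' := Qs_zero H
  add_mem' := Qs_add H
  smul_mem' := by
    rintro ⟨r, hr⟩ a ha
    show r • a ∈ Qs H
    induction hr using Algebra.adjoin_induction generalizing a with
    | mem x hx =>
      rcases hx with rfl | rfl
      · simpa using Qs_T H hτ hk 1 ha
      · simpa using Qs_T H hτ hk (-1) ha
    | algebraMap c =>
      rcases zm c with rfl | rfl
      · rw [map_zero, zero_smul]; exact Qs_zero H
      · rw [map_one, one_smul]; exact ha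
    | add x y _ _ hx hy => rw [add_smul]; exact Qs_add H (hx ha) (hy ha)
    | mul x y _ _ hx hy => rw [mul_smul]; exact hx (hy ha)

def ZH : Submodule F Z where
  carrier := {z | cz z ∈ H}
  zero_mem' := H.one_mem
  add_mem' := fun ha hb => by
    show cz _ ∈ H
    rw [cz_add]; exact H.mul_mem ha hb
  smul_mem' := fun c z hz => by
    rcases zm c with rfl | rfl
    · rw [zero_smul]; exact H.one_mem
    · rw [one_smul]; exact hz

theorem cm_mem {a b : B} (ha : a ∈ Qs H) (hb : b ∈ Qs H) : cm a b ∈ ZH H := by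
  obtain ⟨g, hg, h1, rfl⟩ := ha
  obtain ⟨h, hh, h2, rfl⟩ := hb
  show cz _ ∈ H
  rw [← mul_inv_eq_iff_eq_mul.2 (comm0 h1 h2)]
  exact H.mul_mem (H.mul_mem hg hh) (H.inv_mem (H.mul_mem hh hg))

theorem tail_ZH (hτ : τ ∈ H) {k : ℕ} (hk : τ.a = k) (h0 : 0 < k) {b : B} (hb : b ∈ Qs H)
    (hb1 : b.1 ≠ 0) : ∃ m, tail m ≤ ZH H := by
  obtain ⟨m, hm⟩ := open_lemma b hb1 k h0
  refine ⟨m + k, tail_le _ _ fun l hl => ?_⟩
  obtain ⟨p, ⟨j, rfl⟩, e⟩ := hm l (by omega)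
  obtain ⟨i, hi⟩ := dvd_K h0 (by omega : k ≤ l)
  rw [← e]
  refine Submodule.sub_mem _ (cm_mem H hb (Qs_T H hτ hk j hb)) ?_
  rw [hi]; push_cast
  rw [← mul_add]
  exact cm_mem H hb (Qs_T H hτ hk _ hb)

end

theorem prim (g : ℤ → Z) : ∃ P : ℤ → Z, ∀ q, P (q + 1) = P q + g q := by
  refine ⟨fun q => match q with
    | Int.ofNat n => ∑ j ∈ Finset.range n, g j
    | Int.negSucc n => -∑ j ∈ Finset.range (n + 1), g (Int.negSucc j), ?_⟩
  rintro (n | n)
  · exact Finset.sum_range_succ (fun j : ℕ => g j) n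
  · cases n with
    | zero => show (∑ j ∈ Finset.range 0, g j) = _; simp
    | succ n =>
      show -∑ j ∈ Finset.range (n + 1), g (Int.negSucc j) =
        -∑ j ∈ Finset.range (n + 1 + 1), g (Int.negSucc j) + _
      rw [Finset.sum_range_succ _ (n + 1)]; abel

theorem prim_k {k : ℤ} (hk : 0 < k) (f : L →ₗ[F] Z) :
    ∃ μ : L →ₗ[F] Z, ∀ β, μ (T k * β) = μ β + f β := by
  choose P hP using fun r : ℤ => prim fun q => f (T (r + k * q))
  refine ⟨lin fun i => P (i % k) (i / k), fun β => ?_⟩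
  induction β using L_ind with
  | h0 => simp
  | hT i =>
    rw [← T_add, lin_T, lin_T, Int.add_emod_left, Int.add_ediv_of_dvd_left dvd_rfl,
      Int.ediv_self hk.ne', add_comm, hP, Int.emod_add_mul_ediv]
  | ha x y hx hy => rw [mul_add, map_add, map_add, map_add, hx, hy]; abel

theorem ZH_fin {S : Set G} (hS : S.Finite) {τ : G} {k : ℤ} (h0 : 0 < k)
    (hτ : τ ∈ Subgroup.closure S) (hk : τ.a = k) (hd : ∀ g ∈ Subgroup.closure S, k ∣ g.a)
    (hb : ∀ b ∈ Qs (Subgroup.closure S), b.1 = 0) :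
    (ZH (Subgroup.closure S) : Set Z).Finite := by
  obtain ⟨μ, hμ⟩ := prim_k h0 (-(lin ψ ∘ₗ LinearMap.mulRight F τ.b.1 ∘ₗ
    (invert (R := F)).toLinearMap ∘ₗ LinearMap.mulLeft F (T k)))
  let κ : G → G := fun s => s * (τ ^ (s.a / k))⁻¹
  let W : Submodule F Z := Submodule.span F ((fun s => (κ s).z - μ (κ s).b.2) '' S)
  have hW : (W : Set Z).Finite := fin_span (hS.image _)
  let E : Subgroup G :=
    { carrier := {g | g.a = 0 ∧ g.b.1 = 0 ∧ g.z - μ g.b.2 ∈ W}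
      one_mem' := ⟨rfl, rfl, by simp [one_z, one_b]⟩
      mul_mem' := by
        rintro g h ⟨h1, h2, h3⟩ ⟨h4, h5, h6⟩
        refine ⟨by rw [mul_a, h1, h4, add_zero], ?_, ?_⟩
        · simp [mul_b, h2, h5]
        · simp only [mul_z, mul_b, h1, T_zero, one_smul, om, h5, mul_zero, map_zero, add_zero,
            Prod.snd_add, map_add]
          convert W.add_mem h3 h6 using 1; abel
      inv_mem' := by
        rintro g ⟨h1, h2, h3⟩
        refine ⟨by rw [inv_a, h1, neg_zero], by simp [inv_b, h2], ?_⟩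
        simp only [inv_z, inv_b, h1, neg_zero, T_zero, one_smul, om, h2, mul_zero, map_zero,
          add_zero, Prod.snd_neg, map_neg]
        convert W.neg_mem h3 using 1; abel }
  have key : ∀ g : G, g.a = 0 → g.b.1 = 0 →
      (τ * g * τ⁻¹).z - μ (τ * g * τ⁻¹).b.2 = g.z - μ g.b.2 := by
    intro g h1 h2
    rw [conj_z _ _ h1, conj_b _ _ h1, hk, Prod.smul_snd, smul_eq_mul, hμ]
    simp only [cm, om, Prod.smul_fst, Prod.smul_snd, smul_eq_mul, h2, mul_zero, map_zero, zero_mul,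
      LinearMap.neg_apply, LinearMap.comp_apply, LinearMap.mulRight_apply, LinearMap.mulLeft_apply,
      AlgEquiv.toLinearMap_apply]
    abel
  have hn : τ ∈ Subgroup.normalizer (E : Set G) := by
    rw [Subgroup.mem_normalizer_iff]
    intro g
    constructor
    · rintro ⟨h1, h2, h3⟩
      refine ⟨by rw [conj_a, h1], by rw [conj_b _ _ h1]; simp [h2], ?_⟩
      rw [key g h1 h2]; exact h3
    · rintro ⟨h1, h2, h3⟩
      rw [conj_a] at h1
      rw [conj_b _ _ h1, Prod.smul_fst, smul_eq_mul] at h2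
      have h2' := (mul_eq_zero.1 h2).resolve_left (isUnit_T _).ne_zero
      rw [key g h1 h2'] at h3
      exact ⟨h1, h2', h3⟩
  have main : ∀ g ∈ Subgroup.closure S, ∃ j : ℤ, g * (τ ^ j)⁻¹ ∈ E := by
    have hnz : ∀ (j : ℤ) (g : G), g ∈ E → τ ^ j * g * (τ ^ j)⁻¹ ∈ E := fun j g hg =>
      (Subgroup.mem_normalizer_iff.1 (Subgroup.zpow_mem _ hn j) g).1 hg
    intro g hg
    induction hg using Subgroup.closure_induction with
    | mem s hs =>
      have hs' : s ∈ Subgroup.closure S := Subgroup.subset_closure hs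
      have h1 : (κ s).a = 0 := by
        show (s * (τ ^ (s.a / k))⁻¹).a = 0
        rw [mul_a, inv_a, zpow_a, hk, Int.mul_ediv_cancel' (hd s hs'), add_neg_cancel]
      exact ⟨s.a / k, h1, hb _ ⟨κ s, Subgroup.mul_mem _ hs' (Subgroup.inv_mem _
        (Subgroup.zpow_mem _ hτ _)), h1, rfl⟩, Submodule.subset_span ⟨s, hs, rfl⟩⟩
    | one => exact ⟨0, by simpa using E.one_mem⟩
    | mul x y _ _ hx hy =>
      obtain ⟨i, hi⟩ := hx
      obtain ⟨j, hj⟩ := hy
      refine ⟨i + j, ?_⟩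
      convert E.mul_mem hi (hnz i _ hj) using 1
      group
    | inv x _ hx =>
      obtain ⟨i, hi⟩ := hx
      refine ⟨-i, ?_⟩
      convert hnz (-i) _ (E.inv_mem hi) using 1
      group
  refine hW.subset fun z hz => ?_
  obtain ⟨j, h1, -, h3⟩ := main _ hz
  have : j = 0 := by
    rw [mul_a, inv_a, zpow_a, hk] at h1
    have h4 : k * j = 0 := by simpa [cz] using h1
    exact (mul_eq_zero.1 h4).resolve_left h0.ne'
  subst this
  simpa [cz] using h3

theorem to_cl0 {H : Subgroup G} {τ y : G} {k : ℕ} (h0 : 0 < k) (hτ : τ ∈ H) (hk : τ.a = k)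
    (hy : Cl H y) (ha : y.a = 0) : Cl0 H y := by
  intro m N hN hN0
  haveI := UU_fin m N hN hN0 _ le_rfl
  have hi : 0 < (V m N hN).index := Nat.pos_of_ne_zero Subgroup.FiniteIndex.index_ne_zero
  obtain ⟨h, hh, e⟩ := hy m (N * (k * (V m N hN).index)) (hN.mul_right _) (by positivity)
  obtain ⟨j, hj⟩ := e.2.2
  rw [mul_a, inv_a, ha, add_zero] at hj
  have e' := UU_mono hN _ le_rfl (Dvd.intro _ rfl) e
  have ht : τ ^ (V m N hN).index ∈ V m N hN := Subgroup.pow_index_mem _ _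
  refine ⟨h * (τ ^ (V m N hN).index) ^ (N * j), H.mul_mem hh (H.zpow_mem (H.pow_mem hτ _) _), ?_, ?_⟩
  · rw [mul_a, zpow_a, pow_a, hk]; push_cast at hj; linarith
  · rw [mul_inv_rev, mul_assoc]
    exact Subgroup.mul_mem _ (Subgroup.inv_mem _ (Subgroup.zpow_mem _ ht _)) e'

theorem central {H : Subgroup G} {τ : G} {k : ℕ} (h0 : 0 < k) (hτ : τ ∈ H) (hk : τ.a = k) {z : Z}
    (hy : Cl0 H (cz z)) (m : ℕ) : ∃ z' ∈ ZH H, z - z' ∈ tail m := by
  have h0' : (0 : ℤ) < k := by exact_mod_cast h0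
  haveI := UU_fin m (K m) dvd_rfl (K_pos m) _ le_rfl
  set n0 := (V m (K m) dvd_rfl).index with hn0
  have hi : 0 < n0 := Nat.pos_of_ne_zero Subgroup.FiniteIndex.index_ne_zero
  have ht : τ ^ n0 ∈ V m (K m) dvd_rfl := Subgroup.pow_index_mem _ _
  obtain ⟨n, hn⟩ := artin h0' (Q H hτ hk) n0
  have hd : K m ∣ k * (2 ^ n * n0) := by
    have := ht.2.2
    rw [pow_a, hk] at this
    have h2 : K m ∣ k * n0 := by exact_mod_cast this
    exact h2.trans ⟨2 ^ n, by ring⟩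
  obtain ⟨h, hh, ha, e⟩ := hy m _ hd (by positivity)
  obtain ⟨c, hc⟩ := e.1
  have e' := UU_mono dvd_rfl _ le_rfl hd e
  have hb : h.b = (T (k * (2 ^ n * n0)) - 1 : L) • (-c) := by
    rw [mul_b, inv_b, ha] at hc
    simp only [cz, neg_zero, T_zero, one_smul, smul_zero, add_zero] at hc
    push_cast at hc
    rw [smul_neg, ← hc, neg_neg]
  obtain ⟨q, ⟨h2, hh2, ha2, rfl⟩, e2⟩ := hn (-c) (by rw [← hb]; exact ⟨h, hh, ha, rfl⟩)
  rw [← hb] at e2
  set h3 := τ ^ n0 * h2 * (τ ^ n0)⁻¹ * h2⁻¹ with hh3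
  have m1 : h3 ∈ H := H.mul_mem (H.mul_mem (H.mul_mem (H.pow_mem hτ _) hh2)
    (H.inv_mem (H.pow_mem hτ _))) (H.inv_mem hh2)
  have m2 : h3 ∈ V m (K m) dvd_rfl := by
    rw [hh3, mul_assoc, mul_assoc]
    refine Subgroup.mul_mem _ ht ?_
    rw [← mul_assoc]
    exact (UU_normal _ _ _ _ _).conj_mem _ (Subgroup.inv_mem _ ht) _
  have a3 : h3.a = 0 := by rw [hh3, mul_a, conj_a, inv_a, ha2]; rfl
  have b3 : h3.b = h.b := by
    rw [hh3, mul_b, conj_a, conj_b _ _ ha2, inv_b, ha2, pow_a, hk, e2, sub_smul]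
    simp [sub_eq_add_neg]
  have e4 : h3⁻¹ * h = cz (h3⁻¹ * h).z := eq_cz (by rw [mul_b, inv_b, inv_a, b3]; simp)
    (by rw [mul_a, inv_a, a3, ha]; rfl)
  refine ⟨(h3⁻¹ * h).z, ?_, ?_⟩
  · show cz _ ∈ H
    rw [← e4]; exact H.mul_mem (H.inv_mem m1) hh
  · have : cz (z - (h3⁻¹ * h).z) ∈ V m (K m) dvd_rfl := by
      rw [sub_eq_neg_add, cz_add, cz_neg, ← e4]
      convert Subgroup.mul_mem _ ((UU_normal _ _ _ _ _).conj_mem _ m2 h⁻¹) e' using 1
      group
    exact this.2.1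

theorem closed {H : Subgroup G} (hH : H.FG) {y : G} (hy : Cl H y) : y ∈ H := by
  obtain ⟨S, rfl, hS⟩ := (Subgroup.fg_iff _).1 hH
  set H := Subgroup.closure S with hHS
  let D : AddSubgroup ℤ :=
    { carrier := {a | ∃ h ∈ H, h.a = a}
      zero_mem' := ⟨1, H.one_mem, rfl⟩
      add_mem' := by
        rintro _ _ ⟨g, hg, rfl⟩ ⟨h, hh, rfl⟩
        exact ⟨g * h, H.mul_mem hg hh, rfl⟩
      neg_mem' := by
        rintro _ ⟨g, hg, rfl⟩
        exact ⟨g⁻¹, H.inv_mem hg, rfl⟩ }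
  obtain ⟨a, ha⟩ := Int.subgroup_cyclic D
  have hd : ∀ g ∈ H, (a.natAbs : ℤ) ∣ g.a := by
    intro g hg
    have : g.a ∈ AddSubgroup.closure {a} := ha ▸ ⟨g, hg, rfl⟩
    obtain ⟨n, hn⟩ := AddSubgroup.mem_closure_singleton.1 this
    rw [Int.natAbs_dvd]
    exact ⟨n, by rw [← hn, smul_eq_mul, mul_comm]⟩
  obtain ⟨τ, hτ, hk⟩ : (a.natAbs : ℤ) ∈ D := by
    have : a ∈ D := ha ▸ AddSubgroup.subset_closure rfl
    rcases Int.natAbs_eq a with h | h
    · rwa [← h]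
    · have := D.neg_mem this
      rwa [h, neg_neg] at this
  generalize a.natAbs = k at *
  rcases Nat.eq_zero_or_pos k with rfl | h0
  · exact closed_fin (fin0 hS fun g hg => by
      simpa using hd g (Subgroup.subset_closure hg)) hy
  have h0' : (0 : ℤ) < k := by exact_mod_cast h0
  obtain ⟨j, hj⟩ : (k : ℤ) ∣ y.a := by
    obtain ⟨h, hh, e⟩ := hy 0 k (one_dvd _) h0
    have := e.2.2
    rw [mul_a, inv_a] at this
    simpa using this.add (hd h hh)
  have c1 := to_cl0 h0 hτ hk (hy.mul (H.inv_mem (H.zpow_mem hτ j)))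
    (by rw [mul_a, inv_a, zpow_a, hk, hj, neg_add_cancel])
  rw [← H.mul_mem_cancel_left (H.inv_mem (H.zpow_mem hτ j))]
  have a1 : ((τ ^ j)⁻¹ * y).a = 0 := by rw [mul_a, inv_a, zpow_a, hk, hj, neg_add_cancel]
  generalize (τ ^ j)⁻¹ * y = y1 at c1 a1 ⊢
  obtain ⟨h1, hh1, ha1, hb1⟩ : y1.b ∈ Q H hτ hk := rfmod h0' _ _ fun i hi => by
    obtain ⟨h, hh, ha, ⟨c, hc⟩, -⟩ := c1 0 (k * i) (one_dvd _) (by positivity)
    refine ⟨c, h, hh, ha, ?_⟩
    rw [mul_b, inv_b, inv_a, ha, neg_zero, T_zero, one_smul, one_smul] at hc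
    push_cast at hc
    rw [← hc]; abel
  have c2 := c1.mul (H.inv_mem hh1) (by rw [inv_a, ha1]; rfl)
  rw [← H.mul_mem_cancel_left (H.inv_mem hh1)]
  have e : h1⁻¹ * y1 = cz (h1⁻¹ * y1).z := eq_cz (by rw [mul_b, inv_b, inv_a, hb1]; simp)
    (by rw [mul_a, inv_a, a1, ha1]; rfl)
  rw [e] at c2 ⊢
  generalize (h1⁻¹ * y1).z = z at c2 ⊢
  have c3 := central h0 hτ hk c2
  show z ∈ ZH H
  by_cases hb : ∀ b ∈ Qs H, b.1 = 0
  · have hf := ZH_fin hS h0' hτ hk hd hb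
    by_contra hz
    have : ∀ z' : Z, ∃ m, z' ∈ ZH H → z - z' ∉ tail m := by
      intro z'
      by_contra hc
      push Not at hc
      have := mem_tail_all fun m => (hc m).2
      rw [sub_eq_zero] at this
      exact hz (this ▸ (hc 0).1)
    choose m hm using this
    obtain ⟨z', hz', e⟩ := c3 (hf.toFinset.sup m)
    exact hm z' hz' (tail_anti (Finset.le_sup (by simpa using hz')) e)
  · push Not at hb
    obtain ⟨b, hb, hb1⟩ := hb
    obtain ⟨m, hm⟩ := tail_ZH H hτ hk h0 hb hb1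
    obtain ⟨z', hz', e⟩ := c3 m
    simpa using Submodule.add_mem _ (hm e) hz'

theorem lerf (H : Subgroup G) (hH : H.FG) (y : G) (hy : y ∉ H) :
    ∃ M : Subgroup G, M.FiniteIndex ∧ H ≤ M ∧ y ∉ M := by
  by_contra hc
  push Not at hc
  refine hy (closed hH fun m N hN h0 => ?_)
  haveI := UU_fin m N hN h0 _ le_rfl
  have := hc (H ⊔ V m N hN) (Subgroup.finiteIndex_of_le le_sup_right) le_sup_left
  obtain ⟨h, hh, u, hu, rfl⟩ := Subgroup.mem_sup_of_normal_right.1 this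
  exact ⟨h, hh, by simpa using hu⟩

end Pool.Agent.KS6_70.Lerf
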