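import Pool.Agent.KS6_70.Lerf.L3
import Pool.Agent.KS6_70.Lerf.Defs

set_option autoImplicit false

namespace Pool.Agent.KS6_70.Lerf

open LaurentPolynomial Pool.Agent.KS6_70.Lerf.Defs Filter Topology

variable [Par]

noncomputable def tt : G := ⟨0, 0, 1⟩
noncomputable def xx (i : ℤ) : G := ⟨(T i, 0), 0, 0⟩
noncomputable def ee : G := ⟨(0, 1), 0, 0⟩

theorem fg : Group.FG G := by
  obtain ⟨m, hm⟩ := tail_ZH (Subgroup.closure {tt, xx 0, ee}) (τ := tt) (k := 1)
    (Subgroup.subset_closure (by simp)) rfl one_pos (b := (T 0, 0))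
    ⟨xx 0, Subgroup.subset_closure (by simp), rfl, rfl⟩ (isUnit_T 0).ne_zero
  refine ⟨(Subgroup.fg_iff _).2 ⟨{tt, xx 0, ee} ∪ (fun l : ℕ => cz (Finsupp.single l 1)) '' Set.Iic m,
    ?_, (Set.toFinite _).union ((Set.finite_Iic m).image _)⟩⟩
  set H := Subgroup.closure ({tt, xx 0, ee} ∪ (fun l : ℕ => cz (Finsupp.single l 1)) '' Set.Iic m)
  have hle : Subgroup.closure {tt, xx 0, ee} ≤ H := Subgroup.closure_mono Set.subset_union_left
  have ht : tt ∈ H := hle (Subgroup.subset_closure (by simp))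
  have hz : ∀ z, cz z ∈ H := by
    intro z
    obtain ⟨v, hv, h⟩ := head_tail m z
    have h1 : head m ≤ ZH H := Submodule.span_le.2 (by
      rintro _ ⟨l, hl, rfl⟩
      exact Subgroup.subset_closure (Or.inr ⟨l, hl, rfl⟩))
    have h2 : z - v ∈ ZH H := hle (hm h)
    show z ∈ ZH H
    simpa using Submodule.add_mem _ h2 (h1 hv)
  have hq : ∀ (b : B), b ∈ Qs H → ∀ γ : L, γ • b ∈ Qs H := by
    intro b hb γ
    induction γ using L_ind with
    | h0 => rw [zero_smul]; exact Qs_zero H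
    | hT i => simpa using Qs_T H ht (k := 1) rfl i hb
    | ha x y hx hy => rw [add_smul]; exact Qs_add H hx hy
  have hb : ∀ b : B, b ∈ Qs H := by
    intro b
    have := Qs_add H
      (hq _ ⟨xx 0, hle (Subgroup.subset_closure (by simp)), rfl, rfl⟩ b.1)
      (hq _ ⟨ee, hle (Subgroup.subset_closure (by simp)), rfl, rfl⟩ b.2)
    simpa [xx, ee] using this
  rw [eq_top_iff]
  intro g _
  rw [← H.mul_mem_cancel_left (H.inv_mem (H.zpow_mem ht g.a))]
  have a1 : ((tt ^ g.a)⁻¹ * g).a = 0 := by rw [mul_a, inv_a, zpow_a]; simp [tt]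
  generalize (tt ^ g.a)⁻¹ * g = y at a1
  obtain ⟨h, hh, ha, e⟩ := hb y.b
  rw [← H.mul_mem_cancel_left (H.inv_mem hh), eq_cz (g := h⁻¹ * y)
    (by rw [mul_b, inv_b, inv_a, e]; simp) (by rw [mul_a, inv_a, a1, ha]; rfl)]
  exact hz _

noncomputable def czh : Multiplicative Z →* deg.ker where
  toFun z := ⟨cz z.toAdd, rfl⟩
  map_one' := rfl
  map_mul' _ _ := Subtype.ext (cz_add _ _)

noncomputable def bh : deg.ker →* Multiplicative B where
  toFun g := Multiplicative.ofAdd g.1.b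
  map_one' := rfl
  map_mul' g h := by
    have : g.1.a = 0 := g.2
    show Multiplicative.ofAdd (g.1 * h.1).b = _
    rw [mul_b, this, T_zero, one_smul]; rfl

theorem solv : Group.IsSolvable G := by
  haveI : Group.IsSolvable deg.ker := solvable_of_ker_le_range czh bh fun g hg =>
    ⟨Multiplicative.ofAdd g.1.z, Subtype.ext (eq_cz (g := g.1) hg g.2).symm⟩
  exact solvable_of_ker_le_range deg.ker.subtype deg (by simp)

theorem tt_pow (n : ℕ) : tt ^ n = ⟨0, 0, n⟩ := by
  induction n with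
  | zero => rfl
  | succ n ih =>
    rw [pow_succ, ih]
    ext1
    · simp [mul_b, tt]
    · simp [mul_z, tt, om_zero_left]
    · simp [mul_a, tt]

theorem xx_conj (n : ℕ) (i : ℤ) : tt ^ n * xx i * (tt ^ n)⁻¹ = xx (i + n) := by
  ext1
  · rw [conj_b _ _ rfl, tt_pow]
    refine Prod.ext ?_ (smul_zero _)
    show (T n : L) * T i = T (i + n)
    rw [← T_add, add_comm]
  · rw [conj_z _ _ rfl, tt_pow]
    show (0 : Z) + cm 0 _ = 0
    rw [cm, om_zero_left, om_zero_right, sub_zero, add_zero]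
  · rw [conj_a]; rfl

theorem fin_quot {P : Type} [Group P] [Finite P] (χ : G →* P) :
    ∃ y, χ (cz (Finsupp.single 0 1)) = χ ee * (χ y * (χ ee)⁻¹ * (χ y)⁻¹) := by
  obtain ⟨m, hm⟩ := open_lemma (T 0, 0) (isUnit_T 0).ne_zero 1 one_pos
  have hk : 0 < orderOf (χ tt) := orderOf_pos _
  have h1 : tail (m + orderOf (χ tt)) ≤ ZH χ.ker := by
    refine tail_le _ _ fun l hl => ?_
    obtain ⟨p, -, e⟩ := hm l (by omega)
    have h2 : χ (xx (p + K l)) = χ (xx p) := by
      rw [← xx_conj, map_mul, map_mul, map_inv, map_pow,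
        orderOf_dvd_iff_pow_eq_one.1 (dvd_K hk (by omega))]
      simp
    have h3 : ∀ q, χ (cz (cm (T 0, 0) ((T q : L) • (T 0, 0)))) =
        χ (xx 0) * χ (xx q) * (χ (xx q) * χ (xx 0))⁻¹ := by
      intro q
      rw [← map_mul, comm0 (g := xx 0) (h := xx q) rfl rfl, map_mul, map_mul, mul_inv_cancel_right]
      simp [xx]
    show cz _ ∈ χ.ker
    rw [← e, MonoidHom.mem_ker, sub_eq_add_neg, cz_add, cz_neg, map_mul, map_inv, h3, h3, h2,
      mul_inv_cancel]
  refine ⟨xx (J (m + orderOf (χ tt))), ?_⟩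
  have h2 : χ (cz _) = 1 := h1 (ψ_J _)
  rw [sub_eq_add_neg, cz_add, cz_neg, map_mul, map_inv, mul_inv_eq_one] at h2
  have h3 := congrArg χ (comm0 (g := ee) (h := xx (J (m + orderOf (χ tt)))) rfl rfl)
  have h4 : cm ee.b (xx (J (m + orderOf (χ tt)))).b = ψ (J (m + orderOf (χ tt))) := by
    simp [cm, om, ee, xx, lin_T]
  rw [h4, map_mul, map_mul, map_mul, h2] at h3
  rw [← mul_assoc, ← mul_assoc, h3]
  group

/-! ### Hamming distance -/

section Ham
variable {X : Type} [Finite X]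

theorem ham_nonneg (σ τ : Equiv.Perm X) : 0 ≤ hamming σ τ := by unfold hamming; positivity

theorem ham_self (σ : Equiv.Perm X) : hamming σ σ = 0 := by simp [hamming]

theorem ham_symm (σ τ : Equiv.Perm X) : hamming σ τ = hamming τ σ := by
  simp only [hamming, ne_comm]

theorem ham_tri (σ τ ρ : Equiv.Perm X) : hamming σ ρ ≤ hamming σ τ + hamming τ ρ := by
  unfold hamming
  rw [← add_div]
  gcongr
  have := Set.ncard_union_le {x | σ x ≠ τ x} {x | τ x ≠ ρ x}
  have h2 : Set.ncard {x | σ x ≠ ρ x} ≤ Set.ncard ({x | σ x ≠ τ x} ∪ {x | τ x ≠ ρ x}) :=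
    Set.ncard_le_ncard fun x hx => by
      by_contra hc
      simp only [Set.mem_union, Set.mem_setOf_eq, not_or, not_not] at hc
      exact hx (hc.1.trans hc.2)
  exact_mod_cast h2.trans this

theorem ham_left (a σ τ : Equiv.Perm X) : hamming (a * σ) (a * τ) = hamming σ τ := by
  simp [hamming]

theorem ham_right (a σ τ : Equiv.Perm X) : hamming (σ * a) (τ * a) = hamming σ τ := by
  unfold hamming
  congr 2
  exact Set.ncard_preimage_of_injective_subset_range (s := {x | σ x ≠ τ x}) a.injective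
    (by rw [a.surjective.range_eq]; exact Set.subset_univ _)

theorem ham_mul (σ τ σ' τ' : Equiv.Perm X) :
    hamming (σ * τ) (σ' * τ') ≤ hamming σ σ' + hamming τ τ' := by
  have := ham_tri (σ * τ) (σ' * τ) (σ' * τ')
  rwa [ham_left, ham_right] at this

theorem ham_inv (σ τ : Equiv.Perm X) : hamming σ⁻¹ τ⁻¹ = hamming σ τ := by
  rw [← ham_left τ, ← ham_right σ, ham_symm]
  simp [mul_assoc]

theorem ham_free [Nonempty X] (σ : Equiv.Perm X) (h : ∀ x, σ x ≠ x) : hamming σ 1 = 1 := by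
  have : {x | σ x ≠ (1 : Equiv.Perm X) x} = Set.univ := Set.eq_univ_of_forall h
  rw [hamming, this, Set.ncard_univ, div_self]
  exact_mod_cast Nat.card_pos.ne'

end Ham

noncomputable abbrev UE (n : ℕ) : Subgroup G := UU n (K n) dvd_rfl _ (tail_ev n)

noncomputable def act (n : ℕ) : G →* Equiv.Perm (G ⧸ UE n) := MulAction.toPermHom G _

theorem act_cz (n : ℕ) (z : Z) (g : G) :
    act n (cz z) (QuotientGroup.mk g) = QuotientGroup.mk g ↔ ev n z = 0 := by
  show (QuotientGroup.mk (cz z * g) : G ⧸ UE n) = QuotientGroup.mk g ↔ _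
  rw [eq_comm, QuotientGroup.eq, ← cz_comm, inv_mul_cancel_left]
  exact ⟨fun h => h.2.1, fun h => ⟨⟨0, by simp [cz]⟩, h, by simp [cz]⟩⟩

noncomputable def ρ (g : G) : G := ⟨(g.b.1, 0), g.z, g.a⟩

theorem ρ_mul (g h : G) : ∃ γ, ρ (g * h) = cz (lin ψ γ) * (ρ g * ρ h) := by
  refine ⟨invert g.b.2 * (T g.a * h.b.1), ?_⟩
  rw [cz_mul]
  ext1
  · simp [ρ, mul_b]
  · simp only [ρ, mul_z, om, Prod.smul_fst, smul_eq_mul, map_zero, zero_mul]; abel
  · rfl

theorem act_mul (g h : G) : ∀ᶠ n in atTop, act n (ρ (g * h)) = act n (ρ g) * act n (ρ h) := by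
  obtain ⟨γ, e⟩ := ρ_mul g h
  obtain ⟨n0, h0⟩ := ev_linψ γ
  filter_upwards [eventually_ge_atTop n0] with n hn
  have : act n (cz (lin ψ γ)) = 1 := by
    ext q
    obtain ⟨g, rfl⟩ := QuotientGroup.mk_surjective q
    exact (act_cz n _ g).2 (h0 n hn)
  rw [e, map_mul, map_mul, this, one_mul]

theorem not_stable {S : Type} (π : FreeGroup S →* G) (hπ : Function.Surjective π) :
    ¬ PermStable π := by
  intro hs
  haveI hfin : ∀ n, Finite (G ⧸ UE n) := fun n =>
    haveI := UU_fin n (K n) dvd_rfl (K_pos n) _ (tail_ev n)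
    inferInstance
  let φ : ∀ n, FreeGroup S →* Equiv.Perm (G ⧸ UE n) := fun n =>
    FreeGroup.lift fun s => act n (ρ (π (FreeGroup.of s)))
  have h1 : ∀ w, ∀ᶠ n in atTop, φ n w = act n (ρ (π w)) := by
    intro w
    induction w using FreeGroup.induction_on with
    | C1 => exact Eventually.of_forall fun n => by rw [map_one, map_one]; exact (map_one _).symm
    | of s => exact Eventually.of_forall fun n => FreeGroup.lift_apply_of
    | inv_of s ih =>
      filter_upwards [ih, act_mul (π (FreeGroup.of s))⁻¹ (π (FreeGroup.of s))] with n e1 e2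
      rw [map_inv, map_inv, e1, eq_comm, eq_inv_iff_mul_eq_one, ← e2, inv_mul_cancel]
      exact map_one _
    | mul x y hx hy =>
      filter_upwards [hx, hy, act_mul (π x) (π y)] with n e1 e2 e3
      rw [map_mul, map_mul, e1, e2, e3]
  have h2 : ∀ w, ρ (π w) = 1 → Tendsto (fun n => hamming (φ n w) 1) atTop (𝓝 0) := by
    intro w hw
    refine tendsto_const_nhds.congr' ?_
    filter_upwards [h1 w] with n e
    rw [e, hw, map_one, ham_self]
  obtain ⟨ψ, hψ, hc⟩ := hs _ hfin φ fun w hw => h2 w (by rw [hw]; rfl)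
  have h3 : ∀ w, Tendsto (fun n => hamming (φ n w) (ψ n w)) atTop (𝓝 0) := by
    intro w
    induction w using FreeGroup.induction_on with
    | C1 => simp [ham_self]
    | of s => exact hc s
    | inv_of s ih => simpa only [map_inv, ham_inv] using ih
    | mul x y hx hy =>
      refine squeeze_zero (fun n => ham_nonneg _ _) (fun n => ?_) (by simpa using hx.add hy)
      rw [map_mul, map_mul]; exact ham_mul _ _ _ _
  obtain ⟨we, hwe⟩ := hπ ee
  obtain ⟨wg, hwg⟩ := hπ (cz (Finsupp.single 0 1))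
  have h4 : ∀ n, hamming (ψ n wg) 1 ≤ hamming (ψ n we) 1 + hamming (ψ n we) 1 := by
    intro n
    let χ : G →* Equiv.Perm (G ⧸ UE n) := π.liftOfSurjective hπ ⟨ψ n, hψ n⟩
    have hχ : ∀ w, χ (π w) = ψ n w := fun w => π.liftOfRightInverse_comp_apply _ _ _ w
    obtain ⟨y, hy⟩ := fin_quot χ
    rw [← hwe, ← hwg, hχ, hχ] at hy
    have := ham_mul (ψ n we) (χ y * (ψ n we)⁻¹ * (χ y)⁻¹) 1 (χ y * 1⁻¹ * (χ y)⁻¹)
    rw [ham_right, ham_left, ham_inv, ← hy] at this
    simpa using this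
  have h5 : Tendsto (fun n => hamming (ψ n we) 1) atTop (𝓝 0) := by
    refine squeeze_zero (fun n => ham_nonneg _ _) (fun n => ham_tri _ (φ n we) _) ?_
    simpa only [ham_symm (ψ _ we), add_zero] using (h3 we).add (h2 we (by rw [hwe]; rfl))
  have h6 : Tendsto (fun n => hamming (φ n wg) 1) atTop (𝓝 0) := by
    refine squeeze_zero (fun n => ham_nonneg _ _)
      (fun n => (ham_tri _ (ψ n wg) _).trans (add_le_add le_rfl (h4 n))) ?_
    simpa using (h3 wg).add (h5.add h5)
  have h7 : Tendsto (fun n => hamming (φ n wg) 1) atTop (𝓝 1) := by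
    refine tendsto_const_nhds.congr' ?_
    filter_upwards [h1 wg] with n e
    rw [e, hwg, ham_free]
    intro q hq
    obtain ⟨g, rfl⟩ := QuotientGroup.mk_surjective q
    have := (act_cz n (Finsupp.single 0 1) g).1 hq
    rw [ev_single] at this
    exact one_ne_zero this
  exact zero_ne_one (tendsto_nhds_unique h6 h7)

end Pool.Agent.KS6_70.Lerf
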