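import Pool.Agent.KS6_70.Lerf.L4

/-! Flexible instability of all products of the groups with arbitrary groups. -/

set_option autoImplicit false

namespace Pool.Agent.KS6_70.Lerf

open LaurentPolynomial Pool.Agent.KS6_70.Lerf.Defs Filter Topology
open scoped commutatorElement

variable [Par]

section Ext
variable {X Y : Type} [Finite X] [Finite Y]

/-- Extension of a permutation of `X` to a larger set by the identity. -/
noncomputable def extH (ι : X ↪ Y) : Equiv.Perm X →* Equiv.Perm Y :=
  letI : DecidablePred (· ∈ Set.range ι) := Classical.decPred _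
  Equiv.Perm.extendDomainHom (Equiv.ofInjective ι ι.injective)

omit [Par] [Finite X] [Finite Y] in
theorem extH_apply (ι : X ↪ Y) (σ : Equiv.Perm X) (x : X) : extH ι σ (ι x) = ι (σ x) := by
  letI : DecidablePred (· ∈ Set.range ι) := Classical.decPred _
  exact Equiv.Perm.extendDomain_apply_image σ (Equiv.ofInjective ι ι.injective) x

omit [Par] [Finite X] [Finite Y] in
theorem extH_not (ι : X ↪ Y) (σ : Equiv.Perm X) {y : Y} (hy : y ∉ Set.range ι) :
    extH ι σ y = y := by
  letI : DecidablePred (· ∈ Set.range ι) := Classical.decPred _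
  exact Equiv.Perm.extendDomain_apply_not_subtype σ (Equiv.ofInjective ι ι.injective) hy

omit [Par] in
theorem card_le' (ι : X ↪ Y) : Nat.card X ≤ Nat.card Y := Nat.card_le_card_of_injective ι ι.injective

omit [Par] in
theorem ncard_compl_range (ι : X ↪ Y) : ((Set.range ι)ᶜ.ncard : ℝ) = Nat.card Y - Nat.card X := by
  rw [Set.ncard_compl, Set.ncard_range_of_injective ι.injective, Nat.cast_sub (card_le' ι)]

omit [Par] in
theorem ext_near [Nonempty X] (ι : X ↪ Y) (σ : Equiv.Perm X) (τ : Equiv.Perm Y) :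
    hamming (extH ι σ) τ ≤ (Set.ncard {x | ι (σ x) ≠ τ (ι x)} : ℝ) / Nat.card X +
      ((Nat.card Y : ℝ) - Nat.card X) / Nat.card X := by
  have hX : (0 : ℝ) < Nat.card X := by exact_mod_cast Nat.card_pos
  have hXY : (Nat.card X : ℝ) ≤ Nat.card Y := by exact_mod_cast card_le' ι
  have h1 : {y | extH ι σ y ≠ τ y} ⊆ ι '' {x | ι (σ x) ≠ τ (ι x)} ∪ (Set.range ι)ᶜ := by
    intro y hy
    by_cases h : y ∈ Set.range ι
    · obtain ⟨x, rfl⟩ := h
      left
      refine ⟨x, ?_, rfl⟩
      have hy' : extH ι σ (ι x) ≠ τ (ι x) := hy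
      rwa [extH_apply] at hy'
    · exact Or.inr h
  have h2 : ((Set.ncard {y | extH ι σ y ≠ τ y} : ℕ) : ℝ) ≤
      Set.ncard {x | ι (σ x) ≠ τ (ι x)} + (Nat.card Y - Nat.card X) := by
    rw [← ncard_compl_range ι]
    have := (Set.ncard_le_ncard h1).trans (Set.ncard_union_le _ _)
    rw [Set.ncard_image_of_injective _ ι.injective] at this
    exact_mod_cast this
  rw [← add_div]
  have h0 : (0 : ℝ) ≤ Set.ncard {x | ι (σ x) ≠ τ (ι x)} + (Nat.card Y - Nat.card X) := by
    have : (0 : ℝ) ≤ Set.ncard {x | ι (σ x) ≠ τ (ι x)} := by positivity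
    linarith
  calc hamming (extH ι σ) τ ≤ (Set.ncard {x | ι (σ x) ≠ τ (ι x)} + (Nat.card Y - Nat.card X)) /
        Nat.card Y := by unfold hamming; gcongr
    _ ≤ _ := by gcongr

omit [Par] in
theorem ext_free [Nonempty X] (ι : X ↪ Y) (σ : Equiv.Perm X) (h : ∀ x, σ x ≠ x) :
    1 ≤ hamming (extH ι σ) 1 + ((Nat.card Y : ℝ) - Nat.card X) / Nat.card X := by
  have hX : (0 : ℝ) < Nat.card X := by exact_mod_cast Nat.card_pos
  have hXY : (Nat.card X : ℝ) ≤ Nat.card Y := by exact_mod_cast card_le' ι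
  have h1 : Set.range ι ⊆ {y | extH ι σ y ≠ (1 : Equiv.Perm Y) y} := by
    rintro _ ⟨x, rfl⟩
    show extH ι σ (ι x) ≠ ι x
    rw [extH_apply]
    exact fun hc => h x (ι.injective hc)
  have h2 : (Nat.card X : ℝ) ≤ Set.ncard {y | extH ι σ y ≠ (1 : Equiv.Perm Y) y} := by
    have := Set.ncard_le_ncard h1
    rw [Set.ncard_range_of_injective ι.injective] at this
    exact_mod_cast this
  have h3 : (Nat.card X : ℝ) / Nat.card Y ≤ hamming (extH ι σ) 1 := by unfold hamming; gcongr
  have h4 : ((Nat.card Y : ℝ) - Nat.card X) / Nat.card Y ≤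
      ((Nat.card Y : ℝ) - Nat.card X) / Nat.card X := by
    have : (0 : ℝ) ≤ Nat.card Y - Nat.card X := by linarith
    gcongr
  have h5 : (Nat.card X : ℝ) / Nat.card Y + ((Nat.card Y : ℝ) - Nat.card X) / Nat.card Y = 1 := by
    rw [← add_div, add_sub_cancel, div_self (hX.trans_le hXY).ne']
  linarith

end Ext

theorem not_flex {H S : Type} [Group H] (π : FreeGroup S →* G × H)
    (hπ : Function.Surjective π) : ¬ FlexStable π := by
  intro hs
  have hfin : ∀ n, Finite (G ⧸ UE n) := fun n =>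
    haveI := UU_fin n (K n) dvd_rfl (K_pos n) _ (tail_ev n)
    inferInstance
  let φ : ∀ n, FreeGroup S →* Equiv.Perm (G ⧸ UE n) := fun n =>
    FreeGroup.lift fun s => act n (ρ (π (FreeGroup.of s)).1)
  have h1 : ∀ w, ∀ᶠ n in atTop, φ n w = act n (ρ (π w).1) := by
    intro w
    induction w using FreeGroup.induction_on with
    | C1 => exact Eventually.of_forall fun n => by rw [map_one, map_one]; exact (map_one _).symm
    | of s => exact Eventually.of_forall fun n => FreeGroup.lift_apply_of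
    | inv_of s ih =>
      filter_upwards [ih, act_mul (π (FreeGroup.of s)).1⁻¹ (π (FreeGroup.of s)).1] with n e1 e2
      rw [map_inv, map_inv, e1, eq_comm, eq_inv_iff_mul_eq_one, Prod.fst_inv, ← e2, inv_mul_cancel]
      exact map_one _
    | mul x y hx hy =>
      filter_upwards [hx, hy, act_mul (π x).1 (π y).1] with n e1 e2 e3
      rw [map_mul, map_mul, e1, e2, Prod.fst_mul, e3]
  have h2 : ∀ w, ρ (π w).1 = 1 → ∀ᶠ n in atTop, φ n w = 1 := by
    intro w hw
    filter_upwards [h1 w] with n e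
    rw [e, hw, map_one]
  obtain ⟨Y, hY, ι, ψ, hψ, hcard, hc⟩ := hs _ hfin φ fun w hw => by
    refine tendsto_const_nhds.congr' ?_
    filter_upwards [h2 w (by rw [MonoidHom.mem_ker.1 hw]; rfl)] with n e
    rw [e, ham_self]
  let Φ : ∀ n, FreeGroup S →* Equiv.Perm (Y n) := fun n => (extH (ι n)).comp (φ n)
  have h2' : ∀ w, ρ (π w).1 = 1 → Tendsto (fun n => hamming (Φ n w) 1) atTop (𝓝 0) := by
    intro w hw
    refine tendsto_const_nhds.congr' ?_
    filter_upwards [h2 w hw] with n e
    show 0 = hamming (extH (ι n) (φ n w)) 1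
    rw [e, map_one, ham_self]
  have h3 : ∀ w, Tendsto (fun n => hamming (Φ n w) (ψ n w)) atTop (𝓝 0) := by
    intro w
    induction w using FreeGroup.induction_on with
    | C1 => simp [ham_self]
    | of s =>
      refine squeeze_zero (fun n => ham_nonneg _ _) (fun n => ?_) (by simpa using (hc s).add hcard)
      exact ext_near (ι n) (φ n (FreeGroup.of s)) (ψ n (FreeGroup.of s))
    | inv_of s ih => simpa only [map_inv, ham_inv] using ih
    | mul x y hx hy =>
      refine squeeze_zero (fun n => ham_nonneg _ _) (fun n => ?_) (by simpa using hx.add hy)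
      rw [map_mul, map_mul]; exact ham_mul _ _ _ _
  obtain ⟨we, hwe⟩ := hπ (ee, 1)
  obtain ⟨wg, hwg⟩ := hπ (cz (Finsupp.single 0 1), 1)
  have h4 : ∀ n, hamming (ψ n wg) 1 ≤ hamming (ψ n we) 1 + hamming (ψ n we) 1 := by
    intro n
    let χ' : G × H →* Equiv.Perm (Y n) := π.liftOfSurjective hπ ⟨ψ n, hψ n⟩
    let χ : G →* Equiv.Perm (Y n) := χ'.comp (MonoidHom.inl G H)
    have hχ : ∀ w, χ' (π w) = ψ n w := fun w => π.liftOfRightInverse_comp_apply _ _ _ w
    obtain ⟨y, hy⟩ := fin_quot χ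
    have e1 : χ ee = ψ n we := by rw [← hχ, hwe]; rfl
    have e2 : χ (cz (Finsupp.single 0 1)) = ψ n wg := by rw [← hχ, hwg]; rfl
    rw [e1, e2] at hy
    have := ham_mul (ψ n we) (χ y * (ψ n we)⁻¹ * (χ y)⁻¹) 1 (χ y * 1⁻¹ * (χ y)⁻¹)
    rw [ham_right, ham_left, ham_inv, ← hy] at this
    simpa using this
  have h5 : Tendsto (fun n => hamming (ψ n we) 1) atTop (𝓝 0) := by
    refine squeeze_zero (fun n => ham_nonneg _ _) (fun n => ham_tri _ (Φ n we) _) ?_
    simpa only [ham_symm (ψ _ we), add_zero] using (h3 we).add (h2' we (by rw [hwe]; rfl))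
  have h6 : Tendsto (fun n => hamming (Φ n wg) 1) atTop (𝓝 0) := by
    refine squeeze_zero (fun n => ham_nonneg _ _)
      (fun n => (ham_tri _ (ψ n wg) _).trans (add_le_add le_rfl (h4 n))) ?_
    simpa using (h3 wg).add (h5.add h5)
  have h7 : ∀ᶠ n in atTop, 1 ≤ hamming (Φ n wg) 1 +
      ((Nat.card (Y n) : ℝ) - Nat.card (G ⧸ UE n)) / Nat.card (G ⧸ UE n) := by
    filter_upwards [h1 wg] with n e
    refine ext_free (ι n) (φ n wg) fun q hq => ?_
    rw [e, hwg] at hq
    obtain ⟨g, rfl⟩ := QuotientGroup.mk_surjective q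
    have := (act_cz n (Finsupp.single 0 1) g).1 hq
    rw [ev_single] at this
    exact one_ne_zero this
  have h8 := le_of_tendsto_of_tendsto tendsto_const_nhds (h6.add hcard) h7
  norm_num at h8

theorem not_flex' {S : Type} (π : FreeGroup S →* G) (hπ : Function.Surjective π) :
    ¬ FlexStable π := by
  intro hs
  -- pass to the product with the trivial group
  let e : G ≃* G × Unit := (MulEquiv.prodUnique (M := G) (N := Unit)).symm
  have hk : ((e : G →* G × Unit).comp π).ker = π.ker := by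
    ext w
    simp [MonoidHom.mem_ker, e]
  refine not_flex (H := Unit) ((e : G →* G × Unit).comp π) (e.surjective.comp hπ) ?_
  intro X hX φ hφ
  rw [hk] at hφ
  obtain ⟨Y, hY, ι, ψ, h1, h2, h3⟩ := hs X hX φ hφ
  exact ⟨Y, hY, ι, ψ, by rw [hk]; exact h1, h2, h3⟩

theorem derived_two : derivedSeries G 2 ≤ Subgroup.center G := by
  have h1 : derivedSeries G 1 ≤ deg.ker := by
    rw [derivedSeries_one]
    exact Abelianization.commutator_subset_ker deg
  have h2 : derivedSeries G 2 = ⁅derivedSeries G 1, derivedSeries G 1⁆ := derivedSeries_succ G 1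
  rw [h2, Subgroup.commutator_le]
  intro g hg h hh
  have ag : g.a = 0 := by
    have := h1 hg
    exact Multiplicative.ofAdd.injective (MonoidHom.mem_ker.1 this)
  have ah : h.a = 0 := by
    have := h1 hh
    exact Multiplicative.ofAdd.injective (MonoidHom.mem_ker.1 this)
  have e : ⁅g, h⁆ = cz (cm g.b h.b) := by
    rw [commutatorElement_def, comm0 ag ah]
    group
  rw [e, Subgroup.mem_center_iff]
  exact fun x => cz_comm _ x

end Pool.Agent.KS6_70.Lerf
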