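import Pool.Agent.KS6_70.Lerf.L5
import Pool.Agent.KS6_70.Lerf.Amen1

/-! Continuum many pairwise non-isomorphic groups in the family. -/

set_option autoImplicit false

namespace Pool.Agent.KS6_70.Lerf

open LaurentPolynomial Pool.Agent.KS6_70.Lerf.Defs Filter Topology
open scoped commutatorElement

/-- The word `x y (y x)⁻¹` with `y = t ^ n x t ^ (-n)`. -/
def Cn {P : Type} [Group P] (t x : P) (n : ℕ) : P :=
  x * (t ^ n * x * (t ^ n)⁻¹) * ((t ^ n * x * (t ^ n)⁻¹) * x)⁻¹

theorem Cn_map {P Q : Type} [Group P] [Group Q] (f : P ≃* Q) (t x : P) (n : ℕ) :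
    f (Cn t x n) = Cn (f t) (f x) n := by simp [Cn]

section Params
variable [Par]

theorem Cn_val (n : ℕ) : Cn tt (xx 0) n = cz (φ n - φ (-n)) := by
  have h1 : tt ^ n * xx 0 * (tt ^ n)⁻¹ = xx n := by rw [xx_conj, zero_add]
  rw [Cn, h1, comm0 (g := xx 0) (h := xx n) rfl rfl, mul_inv_cancel_right]
  congr 1
  simp [cm, om, xx, lin_T, invert_T]

theorem phi_eq {m : ℕ} {i j : ℤ} (hi : |i| < 2 * K m) (hj : |j| < 2 * K m)
    (h : (K m : ℤ) ∣ i - j) : φ i = φ j := by
  ext l'
  rw [φ_apply, φ_apply]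
  cases l' with
  | zero => rfl
  | succ l' =>
    simp only [φf]
    by_cases hl : l' + 1 ≤ m
    · exact ind_congr (U_per ((KZ hl).trans h))
    · have h1 : (K m : ℤ) ≤ K l' := by
        exact_mod_cast Nat.le_of_dvd (K_pos _) (K_dvd (by omega : m ≤ l'))
      rw [ind_neg (not_U (by linarith)), ind_neg (not_U (by linarith))]

theorem rel_holds (l : ℕ) : Cn tt (xx 0) (K (l + 1) + (2 * K l + 1)) = Cn tt (xx 0) (2 * K l + 1) := by
  have hk : (1 : ℤ) ≤ K l := by exact_mod_cast K_pos l
  have hK := K_geZ l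
  have hl : (0 : ℤ) ≤ l := by positivity
  have h1 : (2 * K l + 1 : ℤ) < K (l + 1) := by nlinarith
  rw [Cn_val, Cn_val]
  congr 2
  · refine phi_eq (m := l + 1) ?_ ?_ ?_
    · push_cast; rw [abs_lt]; constructor <;> linarith
    · push_cast; rw [abs_lt]; constructor <;> linarith
    · push_cast; exact ⟨1, by ring⟩
  · refine phi_eq (m := l + 1) ?_ ?_ ?_
    · push_cast; rw [abs_lt]; constructor <;> linarith
    · push_cast; rw [abs_lt]; constructor <;> linarith
    · push_cast; exact ⟨-1, by ring⟩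

theorem rel_fails {l : ℕ} (hl : 1 ≤ l) {k : ℕ} (h1 : 8 * (l + 1) * K l ≤ k)
    (h2 : k + 8 * (l + 1) * K l ≤ K (l + 1)) :
    Cn tt (xx 0) (k + (2 * K l + 1)) ≠ Cn tt (xx 0) (2 * K l + 1) := by
  have hk : (1 : ℤ) ≤ K l := by exact_mod_cast K_pos l
  have h1' : (8 * (l + 1) * K l : ℤ) ≤ k := by exact_mod_cast h1
  have h2' : (k + 8 * (l + 1) * K l : ℤ) ≤ K (l + 1) := by exact_mod_cast h2
  have hl' : (1 : ℤ) ≤ l := by exact_mod_cast hl
  have hlK : (1 : ℤ) ≤ l * K l := by nlinarith
  rw [Cn_val, Cn_val]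
  intro h
  have h3 : φ ((k + (2 * K l + 1) : ℕ) : ℤ) - φ (-((k + (2 * K l + 1) : ℕ) : ℤ)) =
      φ ((2 * K l + 1 : ℕ) : ℤ) - φ (-((2 * K l + 1 : ℕ) : ℤ)) := congrArg G.z h
  have h4 := congrArg (fun z : Z => z (l + 1)) h3
  simp only [Finsupp.sub_apply, φ_apply, φf] at h4
  have e1 : ¬ U l ((k + (2 * K l + 1) : ℕ) : ℤ) := by
    rintro ⟨r, hr1, hr2, hd⟩
    have a1 : (1 : ℤ) ≤ r := by exact_mod_cast hr1
    have a2 : (r : ℤ) ≤ l := by exact_mod_cast hr2
    have a3 : (r - 1 : ℤ) * (2 * K l + 1) ≤ l * (3 * K l) := by nlinarith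
    have a4 : (0 : ℤ) ≤ (r - 1 : ℤ) * (2 * K l + 1) := by nlinarith
    push_cast at hd
    have := Int.eq_zero_of_abs_lt_dvd hd (by
      rw [abs_lt]; constructor <;> nlinarith)
    nlinarith
  have e2 : ¬ U l (-((k + (2 * K l + 1) : ℕ) : ℤ)) := by
    rintro ⟨r, hr1, hr2, hd⟩
    have a1 : (1 : ℤ) ≤ r := by exact_mod_cast hr1
    have a2 : (r : ℤ) ≤ l := by exact_mod_cast hr2
    have a3 : (r + 1 : ℤ) * (2 * K l + 1) ≤ (l + 1) * (3 * K l) := by nlinarith
    push_cast at hd
    have := Int.eq_zero_of_abs_lt_dvd hd (by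
      rw [abs_lt]; constructor <;> nlinarith)
    nlinarith
  have e3 : U l ((2 * K l + 1 : ℕ) : ℤ) := ⟨1, le_rfl, hl, by push_cast; exact ⟨0, by ring⟩⟩
  have e4 : ¬ U l (-((2 * K l + 1 : ℕ) : ℤ)) := by
    rintro ⟨r, hr1, hr2, hd⟩
    have a1 : (1 : ℤ) ≤ r := by exact_mod_cast hr1
    have a2 : (r : ℤ) ≤ l := by exact_mod_cast hr2
    have a3 : (r + 1 : ℤ) * (2 * K l + 1) ≤ (l + 1) * (3 * K l) := by nlinarith
    push_cast at hd
    have := Int.eq_zero_of_abs_lt_dvd hd (by
      rw [abs_lt]; constructor <;> nlinarith)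
    nlinarith
  rw [ind_neg e1, ind_neg e2, ind_pos e3, ind_neg e4] at h4
  simp at h4

instance : Countable L := (AddMonoidAlgebra.coeffLinearEquiv F (M := ℤ)).toEquiv.injective.countable

instance : Countable G :=
  Function.Injective.countable (f := fun g : G => (g.b, g.z, g.a)) fun g h e => by
    simp only [Prod.mk.injEq] at e
    exact G.ext e.1 e.2.1 e.2.2

end Params

theorem K_congr (p q : Par) {l : ℕ} (h : ∀ m < l, p.f m = q.f m) : @K p l = @K q l := by
  induction l with
  | zero => rfl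
  | succ l ih =>
    have h1 := ih fun m hm => h m (by omega)
    show @K p l * (8 * (l + 1) * p.f l) = @K q l * (8 * (l + 1) * q.f l)
    rw [h1, h l (by omega)]

/-- The group with parameter `p`. -/
def Gr (_ : Par) : Type := G

noncomputable instance (p : Par) : Group (Gr p) := @instGroupG p

/-- The generator `t`. -/
noncomputable def tp (p : Par) : Gr p := @tt
/-- The generator `x`. -/
noncomputable def xp (p : Par) : Gr p := @xx 0

theorem separate (p q : Par) {l : ℕ} (hl : 1 ≤ l) (h : ∀ m < l, p.f m = q.f m)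
    (hlt : p.f l < q.f l) : ∃ i j : ℕ,
      Cn (tp p) (xp p) i = Cn (tp p) (xp p) j ∧ Cn (tp q) (xp q) i ≠ Cn (tp q) (xp q) j := by
  refine ⟨@K p (l + 1) + (2 * @K p l + 1), 2 * @K p l + 1, @rel_holds p l, ?_⟩
  have h1 := K_congr p q h
  have h2 : @K p (l + 1) = 8 * (l + 1) * @K q l * p.f l := by
    show @K p l * (8 * (l + 1) * p.f l) = _
    rw [h1]; ring
  have h3 : @K q (l + 1) = 8 * (l + 1) * @K q l * q.f l := by
    show @K q l * (8 * (l + 1) * q.f l) = _
    ring
  rw [h1]
  refine @rel_fails q l hl _ ?_ ?_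
  · rw [h2]
    exact Nat.le_mul_of_pos_right _ (p.pos l)
  · rw [h2, h3]
    have : 8 * (l + 1) * @K q l * p.f l + 8 * (l + 1) * @K q l =
        8 * (l + 1) * @K q l * (p.f l + 1) := by ring
    rw [this]
    exact Nat.mul_le_mul_left _ hlt

/-- The parameter belonging to a sequence of zeros and ones. -/
@[instance_reducible] def par (ε : ℕ → Bool) : Par where
  f := fun n => match n with
    | 0 => 1
    | n + 1 => if ε n then 2 else 1
  pos := fun n => by
    cases n with
    | zero => exact one_pos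
    | succ n => show 0 < if ε n then 2 else 1; split_ifs <;> norm_num

theorem family_sep {ε δ : ℕ → Bool} {r : Par} (θ : Gr (par ε) ≃* Gr r) (θ' : Gr (par δ) ≃* Gr r)
    (h1 : θ (tp _) = θ' (tp _)) (h2 : θ (xp _) = θ' (xp _)) : ε = δ := by
  have key : ∀ i j : ℕ, Cn (tp (par ε)) (xp (par ε)) i = Cn (tp (par ε)) (xp (par ε)) j ↔
      Cn (tp (par δ)) (xp (par δ)) i = Cn (tp (par δ)) (xp (par δ)) j := by
    intro i j
    rw [← θ.injective.eq_iff, ← θ'.injective.eq_iff, Cn_map, Cn_map, Cn_map, Cn_map, h1, h2]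
  by_contra hne
  have hex : ∃ n, ε n ≠ δ n := by
    by_contra hc
    push Not at hc
    exact hne (funext hc)
  classical
  let n := Nat.find hex
  have hn : ε n ≠ δ n := Nat.find_spec hex
  have hlt : ∀ m < n, ε m = δ m := fun m hm => not_not.1 (Nat.find_min hex hm)
  have hf : ∀ m < n + 1, (par ε).f m = (par δ).f m := by
    intro m hm
    cases m with
    | zero => rfl
    | succ m =>
      show (if ε m then 2 else 1) = if δ m then 2 else 1
      rw [hlt m (by omega)]
  cases he : ε n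
  · have hd : δ n = true := by
      cases hd : δ n
      · exact absurd (he.trans hd.symm) hn
      · rfl
    obtain ⟨i, j, a, b⟩ := separate (par ε) (par δ) (l := n + 1) (by omega) hf (by
      show (if ε n then 2 else 1) < if δ n then 2 else 1
      rw [he, hd]; norm_num)
    exact b ((key i j).1 a)
  · have hd : δ n = false := by
      cases hd : δ n
      · rfl
      · exact absurd (he.trans hd.symm) hn
    obtain ⟨i, j, a, b⟩ := separate (par δ) (par ε) (l := n + 1) (by omega)
      (fun m hm => (hf m hm).symm) (by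
      show (if δ n then 2 else 1) < if ε n then 2 else 1
      rw [he, hd]; norm_num)
    exact b ((key i j).2 a)

/-- Isomorphism of the groups in the family. -/
def isoSetoid : Setoid (ℕ → Bool) where
  r ε δ := Nonempty (Gr (par ε) ≃* Gr (par δ))
  iseqv := ⟨fun _ => ⟨MulEquiv.refl _⟩, fun ⟨e⟩ => ⟨e.symm⟩, fun ⟨e⟩ ⟨f⟩ => ⟨e.trans f⟩⟩

theorem class_countable (ε : ℕ → Bool) : {δ | Nonempty (Gr (par δ) ≃* Gr (par ε))}.Countable := by
  have : Countable (Gr (par ε)) := inferInstanceAs (Countable G)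
  have h : Function.Injective (fun δ : {δ | Nonempty (Gr (par δ) ≃* Gr (par ε))} =>
      (δ.2.some (tp _), δ.2.some (xp _))) := by
    intro δ δ' e
    simp only [Prod.mk.injEq] at e
    exact Subtype.ext (family_sep δ.2.some δ'.2.some e.1 e.2)
  exact Set.countable_coe_iff.1 h.countable

theorem card_classes : Cardinal.mk (Quotient isoSetoid) = Cardinal.continuum := by
  refine le_antisymm ?_ ?_
  · refine (Cardinal.mk_quotient_le (s := isoSetoid)).trans ?_
    simp
  · by_contra hlt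
    rw [not_le] at hlt
    have h1 : Cardinal.mk (ℕ → Bool) ≤ Cardinal.mk (Quotient isoSetoid) * Cardinal.aleph0 := by
      refine Cardinal.mk_le_mk_mul_of_mk_preimage_le (Quotient.mk isoSetoid) fun b => ?_
      induction b using Quotient.inductionOn with
      | h ε =>
        refine Cardinal.le_aleph0_iff_set_countable.2 ((class_countable ε).mono ?_)
        intro δ hδ
        exact Quotient.exact hδ
    have h2 : Cardinal.mk (ℕ → Bool) = Cardinal.continuum := by simp
    rw [h2] at h1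
    have h3 : Cardinal.mk (Quotient isoSetoid) * Cardinal.aleph0 < Cardinal.continuum :=
      Cardinal.mul_lt_of_lt Cardinal.aleph0_le_continuum hlt Cardinal.aleph0_lt_continuum
    exact absurd h1 (not_le.2 h3)

end Pool.Agent.KS6_70.Lerf
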